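import Pool.Agent.TH819.PB.FinCc
import Pool.Agent.TH819.PL.FinD

/-! Deviations of both signs from the mean, short intervals. -/

open Finset MeasureTheory Filter Topology

namespace TH819.PL

open H343 H321VP

/-- one side -/
lemma one_side {X V Dm : ℝ} (hX : 1 ≤ X) {g : ℝ → ℝ} (hg : Measurable g) (hDm : 0 < Dm)
    (hgb : ∀ y ∈ Set.Ioc 1 X, |g y| ≤ Dm) (hg0 : ∫ y in (1 : ℝ)..X, g y = 0) (hV : 0 ≤ V)
    (h : X * V ≤ ∫ y in (1 : ℝ)..X, |g y|) :
    X * (V / 4 / Dm) ≤ (volume {y : ℝ | y ∈ Set.Ioc 1 X ∧ V / 4 ≤ g y}).toReal := by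
  set E : Set ℝ := {y : ℝ | y ∈ Set.Ioc 1 X ∧ V / 4 ≤ g y} with hE
  have hEm : MeasurableSet E :=
    measurableSet_Ioc.inter (measurableSet_le measurable_const hg)
  have hEf : volume E < ⊤ := lt_of_le_of_lt (measure_mono fun y hy => hy.1) measure_Ioc_lt_top
  rw [intervalIntegral.integral_of_le hX] at hg0 h
  have h1 : ∀ y ∈ Set.Ioc 1 X, |g y| + g y ≤ V / 2 + E.indicator (fun _ => 2 * Dm) y := by
    intro y hy
    have h0 := hgb y hy
    by_cases h2 : V / 4 ≤ g y
    · rw [Set.indicator_of_mem (show y ∈ E from ⟨hy, h2⟩)]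
      have := le_abs_self (g y)
      linarith
    · rw [Set.indicator_of_notMem (fun h3 : y ∈ E => h2 h3.2), add_zero]
      push Not at h2
      rcases le_or_gt 0 (g y) with h3 | h3
      · rw [abs_of_nonneg h3]
        linarith
      · rw [abs_of_neg h3]
        linarith
  have hi1 : IntegrableOn (fun y => |g y|) (Set.Ioc 1 X) := by
    refine Measure.integrableOn_of_bounded (M := Dm) measure_Ioc_lt_top.ne
      (continuous_abs.measurable.comp hg).aestronglyMeasurable ?_
    rw [ae_restrict_iff' measurableSet_Ioc]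
    refine Filter.Eventually.of_forall fun y hy => ?_
    rw [Real.norm_eq_abs, abs_abs]
    exact hgb y hy
  have hi2 : IntegrableOn g (Set.Ioc 1 X) := by
    refine Measure.integrableOn_of_bounded (M := Dm) measure_Ioc_lt_top.ne
      hg.aestronglyMeasurable ?_
    rw [ae_restrict_iff' measurableSet_Ioc]
    refine Filter.Eventually.of_forall fun y hy => ?_
    rw [Real.norm_eq_abs]
    exact hgb y hy
  have hi3 : IntegrableOn (E.indicator (fun _ => 2 * Dm)) (Set.Ioc 1 X) := by
    apply Integrable.integrableOn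
    rw [integrable_indicator_iff hEm]
    exact integrableOn_const hEf.ne
  have hi4 : Integrable (fun _ : ℝ => V / 2) (volume.restrict (Set.Ioc 1 X)) :=
    integrableOn_const (s := Set.Ioc (1 : ℝ) X) measure_Ioc_lt_top.ne
  have hi5 : IntegrableOn (fun y => V / 2 + E.indicator (fun _ => 2 * Dm) y) (Set.Ioc 1 X) :=
    Integrable.add hi4 hi3
  have hi6 : IntegrableOn (fun y => |g y| + g y) (Set.Ioc 1 X) := Integrable.add hi1 hi2
  have h4 := setIntegral_mono_on hi6 hi5 measurableSet_Ioc h1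
  rw [integral_add hi1 hi2, hg0, add_zero, integral_add hi4 hi3, setIntegral_const,
    setIntegral_indicator hEm, setIntegral_const] at h4
  have h5 : Set.Ioc 1 X ∩ E = E := Set.inter_eq_right.2 fun y hy => hy.1
  rw [h5, smul_eq_mul, smul_eq_mul, Measure.real, Measure.real, Real.volume_Ioc,
    ENNReal.toReal_ofReal (by linarith)] at h4
  have h6 : (X - 1) * (V / 2) ≤ X * (V / 2) := by
    apply mul_le_mul_of_nonneg_right (by linarith) (by positivity)
  have h7 : X * (V / 4) ≤ (volume E).toReal * Dm := by linarith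
  rw [← mul_div_assoc, div_le_iff₀ hDm]
  exact h7

/-- first moment from a higher one -/
lemma first_mom_int {X T Dm p : ℝ} (hX : 1 ≤ X) {g : ℝ → ℝ} (hg : Measurable g) (hDm : 0 < Dm)
    (hp : 1 < p) (hT : 0 ≤ T) (hgb : ∀ y ∈ Set.Ioc 1 X, |g y| ≤ Dm)
    (h : X * T ^ p ≤ ∫ y in (1 : ℝ)..X, |g y| ^ p) :
    X * (T * (T / Dm) ^ (p - 1)) ≤ ∫ y in (1 : ℝ)..X, |g y| := by
  have hDp : 0 < Dm ^ (p - 1) := by positivity
  have huI : Set.uIoc 1 X = Set.Ioc 1 X := Set.uIoc_of_le hX
  have hi1 : IntervalIntegrable (fun y => |g y|) volume 1 X := by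
    refine ii_of (C := Dm) (continuous_abs.measurable.comp hg) fun y hy => ?_
    rw [abs_abs]
    exact hgb y (huI ▸ hy)
  have hi2 : IntervalIntegrable (fun y => |g y| ^ p) volume 1 X := by
    refine ii_of (C := Dm ^ p) ((continuous_abs.measurable.comp hg).pow_const p) fun y hy => ?_
    rw [abs_of_nonneg (by positivity)]
    exact Real.rpow_le_rpow (abs_nonneg _) (hgb y (huI ▸ hy)) (by linarith)
  have h1 : ∫ y in (1 : ℝ)..X, |g y| ^ p ≤ ∫ y in (1 : ℝ)..X, Dm ^ (p - 1) * |g y| := by
    rw [intervalIntegral.integral_of_le hX, intervalIntegral.integral_of_le hX]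
    refine setIntegral_mono_on ((intervalIntegrable_iff_integrableOn_Ioc_of_le hX).1 hi2)
      ((intervalIntegrable_iff_integrableOn_Ioc_of_le hX).1 (hi1.const_mul _))
      measurableSet_Ioc fun y hy => ?_
    rcases (abs_nonneg (g y)).eq_or_lt with h2 | h2
    · rw [← h2, Real.zero_rpow (by linarith), mul_zero]
    · calc |g y| ^ p = |g y| ^ (1 + (p - 1)) := by congr 1; ring
        _ = |g y| * |g y| ^ (p - 1) := by rw [Real.rpow_add h2, Real.rpow_one]
        _ ≤ |g y| * Dm ^ (p - 1) := by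
            have := Real.rpow_le_rpow (abs_nonneg _) (hgb y hy) (show 0 ≤ p - 1 by linarith)
            gcongr
        _ = _ := mul_comm _ _
  rw [intervalIntegral.integral_const_mul] at h1
  have h2 : T ^ p = T * T ^ (p - 1) := by
    rcases hT.eq_or_lt with h3 | h3
    · rw [← h3, Real.zero_rpow (by linarith), zero_mul]
    · calc T ^ p = T ^ (1 + (p - 1)) := by congr 1; ring
        _ = T * T ^ (p - 1) := by rw [Real.rpow_add h3, Real.rpow_one]
  rw [Real.div_rpow hT hDm.le]
  have h3 : X * (T * T ^ (p - 1)) ≤ (∫ y in (1 : ℝ)..X, |g y|) * Dm ^ (p - 1) := by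
    rw [← h2]
    linarith
  calc X * (T * (T ^ (p - 1) / Dm ^ (p - 1))) = (X * (T * T ^ (p - 1))) / Dm ^ (p - 1) := by ring
    _ ≤ ∫ y in (1 : ℝ)..X, |g y| := by
        rw [div_le_iff₀ hDp]
        exact h3

lemma int_DD_le (M : ℕ) {H X : ℝ} (hH : 0 ≤ H) (hX : 1 ≤ X) :
    ∫ y in (1 : ℝ)..X, DD M H y ≤
      H * (∑ n ∈ Icc 1 M, ArithmeticFunction.vonMangoldt n) - H * (X - 1) := by
  have hii : ∀ n : ℕ, IntervalIntegrable (fun y => ArithmeticFunction.vonMangoldt n *
      (Set.Icc ((n : ℝ) - H / 2) (n + H / 2)).indicator (fun _ => (1 : ℝ)) y) volume 1 X := by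
    intro n
    refine ii_of (C := |ArithmeticFunction.vonMangoldt n|)
      ((measurable_const.indicator measurableSet_Icc).const_mul _) fun y _ => ?_
    rw [abs_mul]
    apply mul_le_of_le_one_right (abs_nonneg _)
    unfold Set.indicator
    split_ifs <;> simp
  have hs : IntervalIntegrable (fun y => ∑ n ∈ Icc 1 M, ArithmeticFunction.vonMangoldt n *
      (Set.Icc ((n : ℝ) - H / 2) (n + H / 2)).indicator (fun _ => (1 : ℝ)) y) volume 1 X := by
    have h0 := IntervalIntegrable.sum (Icc 1 M) fun n _ => hii n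
    have e : (∑ n ∈ Icc 1 M, fun y => ArithmeticFunction.vonMangoldt n *
        (Set.Icc ((n : ℝ) - H / 2) (n + H / 2)).indicator (fun _ => (1 : ℝ)) y) =
        fun y => ∑ n ∈ Icc 1 M, ArithmeticFunction.vonMangoldt n *
        (Set.Icc ((n : ℝ) - H / 2) (n + H / 2)).indicator (fun _ => (1 : ℝ)) y := by
      ext y
      rw [Finset.sum_apply]
    rwa [e] at h0
  unfold DD
  rw [intervalIntegral.integral_sub hs intervalIntegrable_const, intervalIntegral.integral_finsetSum fun n _ => hii n,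
    intervalIntegral.integral_const, smul_eq_mul, mul_sum]
  have h1 : ∀ n ∈ Icc 1 M, ∫ y in (1 : ℝ)..X, ArithmeticFunction.vonMangoldt n *
      (Set.Icc ((n : ℝ) - H / 2) (n + H / 2)).indicator (fun _ => (1 : ℝ)) y ≤
      H * ArithmeticFunction.vonMangoldt n := by
    intro n _
    rw [intervalIntegral.integral_const_mul, mul_comm]
    apply mul_le_mul_of_nonneg_right _ ArithmeticFunction.vonMangoldt_nonneg
    rw [intervalIntegral.integral_of_le hX, setIntegral_indicator measurableSet_Icc,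
      setIntegral_const, smul_eq_mul, mul_one, Measure.real]
    calc (volume (Set.Ioc 1 X ∩ Set.Icc ((n : ℝ) - H / 2) (n + H / 2))).toReal ≤
        (volume (Set.Icc ((n : ℝ) - H / 2) (n + H / 2))).toReal :=
          ENNReal.toReal_mono measure_Icc_lt_top.ne (measure_mono Set.inter_subset_right)
      _ = H := by
          rw [Real.volume_Icc, ENNReal.toReal_ofReal (by linarith)]
          ring
  have h2 := sum_le_sum h1
  linarith

theorem both_signs : ∀ k : ℕ, 2 ≤ k → ∀ δ : ℝ, 0 < δ → ∃ c X₀ : ℝ, 0 < c ∧ ∀ X H T U y : ℝ,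
    X₀ ≤ X → 1 ≤ H → H ≤ X ^ (1 / (2 * (k : ℝ)) - δ) →
    T = Real.sqrt (H * (1 + Real.log H)) →
    U = c * T * (T / (H * Real.log X)) ^ (1 / (2 * (k : ℝ) - 1)) →
    (X - 1) * y = ∫ x in (1 : ℝ)..X, psi x H →
    X * (U / (H * Real.log X)) ≤ (volume {x : ℝ | 1 < x ∧ x ≤ X ∧ y + U ≤ psi x H}).toReal ∧
    X * (U / (H * Real.log X)) ≤ (volume {x : ℝ | 1 < x ∧ x ≤ X ∧ psi x H ≤ y - U}).toReal ∧
    ∀ z : ℝ, U ≤ (1 / X) * ∫ x in (1 : ℝ)..X, |psi x H - z| := by
  intro k hk δ0 hδ0
  have hk0 : (2 : ℝ) ≤ k := by exact_mod_cast hk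
  set δ := min δ0 (1 / (4 * (k : ℝ))) with hδdef
  have hδ : 0 < δ := lt_min hδ0 (by positivity)
  obtain ⟨c0, hc0, hev⟩ := lp_lower_c k hk δ hδ (min_le_right _ _)
  set p : ℝ := 2 * (k : ℝ) / (2 * k - 1) with hpdef
  have hkm : (0 : ℝ) < 2 * k - 1 := by linarith
  have hp1 : 1 < p := by
    rw [hpdef, lt_div_iff₀ hkm]; linarith
  have hp0 : 0 < p := by linarith
  set r : ℝ := 1 / (2 * (k : ℝ) - 1) with hr
  have hr0 : 0 < r := by positivity
  have hpr : p - 1 = r := by
    rw [hr, hpdef]
    field_simp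
    ring
  obtain ⟨X1, hX1⟩ := (hev.and (eventually_ge_atTop (10 : ℝ))).exists_forall_of_atTop
  set c : ℝ := min (c0 * (c0 / 16) ^ r / 64) (1 / 2) with hc
  refine ⟨c, X1, lt_min (by positivity) (by norm_num), fun X H T U y hX hH hHX0 hT hU hy => ?_⟩
  obtain ⟨h1, hX10⟩ := hX1 X hX
  have hX1' : 1 < X := by linarith
  have hX0 : 0 < X := by linarith
  have hHX : H ≤ X ^ (1 / (2 * (k : ℝ)) - δ) := by
    refine hHX0.trans (Real.rpow_le_rpow_of_exponent_le hX1'.le ?_)
    have := min_le_left δ0 (1 / (4 * (k : ℝ)))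
    linarith
  obtain ⟨M, hM, hlow⟩ := h1 H hH hHX
  have hlogH : 0 ≤ Real.log H := Real.log_nonneg hH
  have hH0 : 0 < H := by linarith
  have hT0 : 0 < T := by rw [hT]; exact Real.sqrt_pos.2 (by positivity)
  have hpsi : ∀ x ≤ X, psi x H - H = DD M H x := fun x hx => psi_eq (hM x hx)
  have hlog1 : 1 ≤ Real.log X := by
    rw [Real.le_log_iff_exp_le hX0]
    have := Real.exp_one_lt_d9
    linarith
  have hHleX : H ≤ X := by
    have hkinv : 1 / (2 * (k : ℝ)) ≤ 1 / 4 := by
      apply one_div_le_one_div_of_le (by norm_num)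
      linarith
    calc H ≤ X ^ (1 / (2 * (k : ℝ)) - δ) := hHX
      _ ≤ X ^ (1 : ℝ) := Real.rpow_le_rpow_of_exponent_le hX1'.le (by linarith)
      _ = X := Real.rpow_one X
  -- the mean
  have hDi : IntervalIntegrable (DD M H) volume 1 X :=
    ii_of (DD_meas M H) fun y _ => DD_bound M H y
  have hpsiint : ∫ x in (1 : ℝ)..X, psi x H = (∫ x in (1 : ℝ)..X, DD M H x) + H * (X - 1) := by
    have e1 : ∫ x in (1 : ℝ)..X, psi x H = ∫ x in (1 : ℝ)..X, (DD M H x + H) := by
      refine intervalIntegral.integral_congr fun x hx => ?_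
      rw [Set.uIcc_of_le hX1'.le] at hx
      have := hpsi x hx.2
      linarith
    rw [e1, intervalIntegral.integral_add hDi intervalIntegrable_const,
      intervalIntegral.integral_const, smul_eq_mul]
    ring
  have hy0 : 0 ≤ y := by
    have h3 : 0 ≤ ∫ x in (1 : ℝ)..X, psi x H := by
      refine intervalIntegral.integral_nonneg hX1'.le fun x hx => ?_
      have h4 := hpsi x hx.2
      unfold DD at h4
      have h5 : 0 ≤ ∑ n ∈ Icc 1 M, ArithmeticFunction.vonMangoldt n *
          (Set.Icc ((n : ℝ) - H / 2) (n + H / 2)).indicator (fun _ => (1 : ℝ)) x :=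
        sum_nonneg fun n _ => mul_nonneg ArithmeticFunction.vonMangoldt_nonneg
          (Set.indicator_nonneg (fun _ _ => zero_le_one) _)
      linarith
    rw [← hy] at h3
    by_contra h4
    push Not at h4
    have : (X - 1) * y < 0 := mul_neg_of_pos_of_neg (by linarith) h4
    linarith
  have hy12 : y ≤ 12 * H := by
    set M' := ⌈X + H / 2⌉₊ with hM'
    have hM1 : X + H / 2 ≤ M' := Nat.le_ceil _
    have hM2 : (M' : ℝ) < X + H / 2 + 1 := Nat.ceil_lt_add_one (by positivity)
    have e1 : ∫ x in (1 : ℝ)..X, psi x H = (∫ x in (1 : ℝ)..X, DD M' H x) + H * (X - 1) := by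
      have e2 : ∫ x in (1 : ℝ)..X, psi x H = ∫ x in (1 : ℝ)..X, (DD M' H x + H) := by
        refine intervalIntegral.integral_congr fun x hx => ?_
        rw [Set.uIcc_of_le hX1'.le] at hx
        have := psi_eq (H := H) (x := x) (M := M') (by linarith [hx.2])
        linarith
      rw [e2, intervalIntegral.integral_add (ii_of (DD_meas M' H) fun y _ => DD_bound M' H y)
        intervalIntegrable_const, intervalIntegral.integral_const, smul_eq_mul]
      ring
    have h3 := int_DD_le M' hH0.le hX1'.le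
    have h4 : ∑ n ∈ Icc 1 M', ArithmeticFunction.vonMangoldt n ≤ 6 * (M' : ℝ) := by
      have h5 := Chebyshev.psi_le_const_mul_self (x := (M' : ℝ)) (by positivity)
      rw [Chebyshev.psi_eq_sum_Icc, Nat.floor_natCast] at h5
      have h6 : Real.log 4 = 2 * Real.log 2 := by
        rw [show (4 : ℝ) = 2 ^ 2 by norm_num, Real.log_pow]
        push_cast
        ring
      have h7 := Real.log_two_lt_d9
      have h8 : (Real.log 4 + 4) * (M' : ℝ) ≤ 6 * M' := by
        gcongr
        linarith
      refine le_trans (sum_le_sum_of_subset_of_nonneg ?_ fun n _ _ =>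
        ArithmeticFunction.vonMangoldt_nonneg) (h5.trans h8)
      intro n hn
      rw [mem_Icc] at hn ⊢
      exact ⟨by omega, hn.2⟩
    have h5 : (X - 1) * y ≤ H * (6 * (M' : ℝ)) := by
      have : H * (∑ n ∈ Icc 1 M', ArithmeticFunction.vonMangoldt n) ≤ H * (6 * (M' : ℝ)) := by
        gcongr
      linarith
    have h6 : 6 * (M' : ℝ) ≤ 12 * (X - 1) := by linarith
    have h7 : (X - 1) * y ≤ (X - 1) * (12 * H) := by
      have : H * (6 * (M' : ℝ)) ≤ H * (12 * (X - 1)) := by gcongr
      linarith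
    exact le_of_mul_le_mul_left h7 (by linarith)
  set B : ℝ := H * Real.log X with hB
  have hB0 : 0 < B := by positivity
  have hDm : 0 < 16 * B := by positivity
  have hHB : H ≤ B := le_mul_of_one_le_right hH0.le hlog1
  have hTH : T ≤ H := by
    rw [hT]
    apply Real.sqrt_le_iff.2 ⟨hH0.le, ?_⟩
    have := Real.log_le_sub_one_of_pos hH0
    rw [sq]
    gcongr
    linarith
  set U1 : ℝ := c0 * T * (c0 * T / (16 * B)) ^ r with hU1
  have hU10 : 0 ≤ U1 := by positivity
  have hTB0 : 0 ≤ T * (T / B) ^ r := by positivity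
  have hU24 : U ≤ U1 / 64 := by
    have e1 : c0 * T / (16 * B) = (c0 / 16) * (T / B) := by
      field_simp
    have e2 : U1 / 64 = (c0 * (c0 / 16) ^ r / 64) * (T * (T / B) ^ r) := by
      rw [hU1, e1, Real.mul_rpow (by positivity) (by positivity)]
      ring
    have e3 : U = c * (T * (T / B) ^ r) := by rw [hU]; ring
    rw [e2, e3]
    exact mul_le_mul_of_nonneg_right (min_le_left _ _) hTB0
  have hUH : U ≤ 1 / 2 * H := by
    have e3 : U = c * (T * (T / B) ^ r) := by rw [hU]; ring
    have e4 : (T / B) ^ r ≤ 1 := by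
      apply Real.rpow_le_one (by positivity) _ hr0.le
      rw [div_le_one hB0]
      linarith
    have e5 : T * (T / B) ^ r ≤ H := by
      calc T * (T / B) ^ r ≤ T * 1 := by gcongr
        _ ≤ H := by linarith
    rw [e3]
    calc c * (T * (T / B) ^ r) ≤ 1 / 2 * (T * (T / B) ^ r) :=
          mul_le_mul_of_nonneg_right (min_le_right _ _) hTB0
      _ ≤ 1 / 2 * H := by gcongr
  have hbd : ∀ t : ℝ, |t| ≤ 12 * H → ∀ x ∈ Set.Ioc 1 X, |DD M H x + t| ≤ 16 * B := by
    intro t ht12 x hx
    have h3 := DD_point (M := M) hH (by linarith) hHleX hx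
    calc |DD M H x + t| ≤ |DD M H x| + |t| := abs_add_le _ _
      _ ≤ 4 * H * Real.log X + 12 * H := by gcongr
      _ ≤ 4 * H * Real.log X + 12 * (H * Real.log X) := by linarith
      _ = 16 * B := by rw [hB]; ring
  have hfirst : ∀ t : ℝ, |t| ≤ 12 * H → X * U1 ≤ ∫ x in (1 : ℝ)..X, |DD M H x + t| := by
    intro t ht12
    have hlow2 := hlow t ht12
    rw [← hT] at hlow2
    have hmo : X * (c0 * T) ^ p ≤ ∫ x in (1 : ℝ)..X, |DD M H x + t| ^ p := by
      set I := ∫ x in (1 : ℝ)..X, |DD M H x + t| ^ p with hI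
      have hI0 : 0 ≤ I := intervalIntegral.integral_nonneg hX1'.le fun y _ => by positivity
      have h4 : (c0 * T) ^ p ≤ (1 / X) * I := by
        calc (c0 * T) ^ p ≤ (((1 / X) * I) ^ (1 / p)) ^ p := by
              have := hlow2
              gcongr
          _ = _ := by
              rw [← Real.rpow_mul (by positivity), one_div_mul_cancel hp0.ne', Real.rpow_one]
      have : X * ((1 / X) * I) = I := by field_simp
      calc X * (c0 * T) ^ p ≤ X * ((1 / X) * I) := by gcongr
        _ = I := this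
    have h5 := first_mom_int hX1'.le ((DD_meas M H).add_const t) hDm hp1 (by positivity)
      (hbd t ht12) hmo
    rw [hpr] at h5
    exact h5
  set t := H - y with htdef
  have ht12 : |t| ≤ 12 * H := by
    rw [abs_le]
    constructor <;> linarith
  set g : ℝ → ℝ := fun x => DD M H x + t with hgdef
  have hgm : Measurable g := (DD_meas M H).add_const t
  have hgpsi : ∀ x ≤ X, g x = psi x H - y := fun x hx => by
    have := hpsi x hx
    simp only [hgdef, htdef]
    linarith
  have hgb : ∀ x ∈ Set.Ioc 1 X, |g x| ≤ 16 * B := hbd t ht12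
  have hg0 : ∫ x in (1 : ℝ)..X, g x = 0 := by
    simp only [hgdef]
    rw [intervalIntegral.integral_add hDi intervalIntegrable_const,
      intervalIntegral.integral_const, smul_eq_mul]
    rw [hpsiint] at hy
    rw [htdef]
    linarith
  have h5 : X * U1 ≤ ∫ x in (1 : ℝ)..X, |g x| := hfirst t ht12
  have e2 : X * (U / B) ≤ X * (U1 / 4 / (16 * B)) := by
    have e3 : U1 / 4 / (16 * B) = U1 / 64 / B := by
      field_simp
      ring
    rw [e3]
    gcongr
  have hUle : U ≤ U1 / 4 := by linarith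
  have hfin : ∀ P : ℝ → Prop, volume {x : ℝ | 1 < x ∧ x ≤ X ∧ P x} ≠ ⊤ := fun P =>
    ne_of_lt (lt_of_le_of_lt (measure_mono (t := Set.Ioc 1 X) fun x hx => ⟨hx.1, hx.2.1⟩)
      measure_Ioc_lt_top)
  refine ⟨?_, ?_, ?_⟩
  · have h6 := one_side hX1'.le hgm hDm hgb hg0 hU10 h5
    refine (e2.trans h6).trans (ENNReal.toReal_mono (hfin _) (measure_mono ?_))
    rintro x ⟨hx, hx2⟩
    refine ⟨hx.1, hx.2, ?_⟩
    rw [hgpsi x hx.2] at hx2
    linarith
  · have h6 := one_side hX1'.le (g := fun x => -g x) hgm.neg hDm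
      (fun x hx => by rw [abs_neg]; exact hgb x hx)
      (by rw [intervalIntegral.integral_neg, hg0, neg_zero]) hU10
      (by simpa only [abs_neg] using h5)
    refine (e2.trans h6).trans (ENNReal.toReal_mono (hfin _) (measure_mono ?_))
    rintro x ⟨hx, hx2⟩
    refine ⟨hx.1, hx.2, ?_⟩
    rw [hgpsi x hx.2] at hx2
    linarith
  · intro z
    have e4 : ∫ x in (1 : ℝ)..X, |psi x H - z| = ∫ x in (1 : ℝ)..X, |DD M H x + (H - z)| := by
      refine intervalIntegral.integral_congr fun x hx => ?_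
      rw [Set.uIcc_of_le hX1'.le] at hx
      have := hpsi x hx.2
      congr 1
      linarith
    rw [e4, one_div, inv_mul_eq_div, le_div_iff₀ hX0, mul_comm]
    rcases le_or_gt |H - z| (12 * H) with h6 | h6
    · refine le_trans ?_ (hfirst _ h6)
      gcongr
      linarith
    · have h7 : |∫ x in (1 : ℝ)..X, (DD M H x + (H - z))| ≤
          ∫ x in (1 : ℝ)..X, |DD M H x + (H - z)| :=
        intervalIntegral.abs_integral_le_integral_abs hX1'.le
      have h8 : ∫ x in (1 : ℝ)..X, (DD M H x + (H - z)) = (X - 1) * (y - z) := by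
        rw [intervalIntegral.integral_add hDi intervalIntegrable_const,
          intervalIntegral.integral_const, smul_eq_mul]
        rw [hpsiint] at hy
        linarith
      rw [h8, abs_mul, abs_of_pos (show 0 < X - 1 by linarith)] at h7
      have h9 : H ≤ |y - z| := by
        have h10 : |H - z| ≤ |H - y| + |y - z| := abs_sub_le _ _ _
        have h11 : |H - y| ≤ 11 * H := by
          rw [abs_le]
          constructor <;> linarith
        linarith
      have h12 : (X - 1) * H ≤ (X - 1) * |y - z| := by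
        apply mul_le_mul_of_nonneg_left h9 (by linarith)
      have h13 : X * U ≤ X * (1 / 2 * H) := by gcongr
      have h14 : X * (1 / 2 * H) ≤ (X - 1) * H := by nlinarith
      linarith

end TH819.PL
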