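import Pool.Agent.TH819.PL.Lin

/-! The linear term for deviations from an arbitrary centre. -/

open Finset MeasureTheory

namespace TH819.PL

open H343 H321VP

lemma GG_cont {ι : Type} {B X : ℝ} {ρ : ℝ → ℝ} (hρ : Test B ρ) (hX : 0 < X) (S : Finset ι)
    (θ c : ι → ℝ) : Continuous (GG ρ B X S θ c) := by
  obtain ⟨K', hK'0, hK'⟩ := rho_lip hρ
  have hWl := WW_lip (B := B) hX hK'0.le hK'
  have hWc : Continuous (WW ρ (X * Real.exp (-B)) X) := by
    have : LipschitzWith (K' / (X * Real.exp (-B))).toNNReal (WW ρ (X * Real.exp (-B)) X) := by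
      refine LipschitzWith.of_dist_le_mul fun y z => ?_
      rw [Real.dist_eq, Real.dist_eq, Real.coe_toNNReal _ (by positivity)]
      exact hWl y z
    exact this.continuous
  exact hWc.mul (Complex.continuous_re.comp (BB_cont _ _ _))

theorem int_GG {B : ℝ} {ρ : ℝ → ℝ} (hρ : Test B ρ) (hρ0 : ∀ v, 0 ≤ v → ρ v = 0) (hB : 0 < B) :
    ∃ C : ℝ, 0 < C ∧ ∀ X : ℝ, 0 < X → ∀ (ι : Type) (S : Finset ι) (θ c : ι → ℝ) (θ0 : ℝ),
    0 < θ0 → (∀ i ∈ S, θ0 ≤ θ i) →
    |∫ y in (X * Real.exp (-B))..X, GG ρ B X S θ c y| ≤ C / (X * θ0 ^ 2) * ∑ i ∈ S, |c i| := by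
  have hg1 : Test B (fun v => Real.exp v * ρ v) := ⟨Real.contDiff_exp.mul hρ.smooth,
    fun v hv => by rw [hρ.supp v hv, mul_zero]⟩
  obtain ⟨C1, hC1, hosc1⟩ := osc hg1
  refine ⟨C1, hC1, ?_⟩
  intro X hX ι S θ c θ0 hθ0 hθ
  set a := X * Real.exp (-B) with ha
  obtain ⟨K, hK0, hK⟩ := rho_lip hρ
  set W : ℝ → ℝ := WW ρ a X with hW
  have hWl := WW_lip (B := B) hX hK0.le hK
  have hWc : Continuous W := by
    have : LipschitzWith (K / a).toNNReal (WW ρ a X) := by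
      refine LipschitzWith.of_dist_le_mul fun y z => ?_
      rw [Real.dist_eq, Real.dist_eq, Real.coe_toNNReal _ (by positivity)]
      exact hWl y z
    exact this.continuous
  have hW1 : ∀ y, y ≤ a → W y = 0 := fun y hy => WW_low hρ hB hX hy
  have hW2 : ∀ y, X ≤ y → W y = 0 := fun y hy => WW_high hρ0 hX hy
  have hWe : ∀ v, W (X * Real.exp v) = ρ v := fun v => WW_exp hρ hB hX v
  set b : ℝ → ℂ := BB S θ c with hb
  have hbc : Continuous b := BB_cont S θ c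
  set F : ℝ → ℂ := fun y => (W y : ℂ) * b y with hF
  have hFc : Continuous F := by fun_prop
  have hGF : ∀ y, GG ρ B X S θ c y = (F y).re := by
    intro y
    simp only [hF, GG]
    rw [Complex.re_ofReal_mul]
  have hmean : ‖∫ y in a..X, F y‖ ≤ C1 / (X * θ0 ^ 2) * ∑ i ∈ S, |c i| := by
    refine int_F S θ c hg1 hB hX hFc (fun y hy => by simp only [hF]; rw [hW1 y hy]; simp)
      (fun y hy => by simp only [hF]; rw [hW2 y hy]; simp)
      (fun v => by
        simp only [hF]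
        rw [hWe]
        push_cast
        ring) hC1 hosc1 hθ0 hθ
  have e1 : ∫ y in a..X, GG ρ B X S θ c y = (∫ y in a..X, F y).re := by
    rw [intervalIntegral.integral_congr (g := fun y => (F y).re) fun y _ => hGF y]
    exact Complex.reCLM.intervalIntegral_comp_comm (hFc.intervalIntegrable _ _)
  rw [e1]
  exact (Complex.abs_re_le_norm _).trans hmean

theorem lin_c {B : ℝ} {ρ : ℝ → ℝ} (hρ : Test B ρ) (hρ0 : ∀ v, 0 ≤ v → ρ v = 0) (hB : 0 < B) :
    ∃ C : ℝ, 0 < C ∧ ∀ (X H : ℝ) (M : ℕ), 0 < X → 0 < H → ∀ t : ℝ, |t| ≤ 12 * H →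
    ∀ (ι : Type) (S : Finset ι) (θ c : ι → ℝ) (θ0 : ℝ), 0 < θ0 → (∀ i ∈ S, θ0 ≤ θ i) →
    (∑ n ∈ Icc 1 M, (ArithmeticFunction.vonMangoldt n : ℂ) *
        (ρ (Real.log (n / X)) : ℂ) * ∑ i ∈ S, ((c i * sg H (θ i) : ℝ) : ℂ) * ex (n * θ i)).re -
      C * (H ^ 2 / X * (∑ n ∈ Icc 1 M, ArithmeticFunction.vonMangoldt n) * ∑ i ∈ S, |c i| +
        H / (X * θ0 ^ 2) * (∑ i ∈ S, |c i|)) ≤
      ∫ y in (X * Real.exp (-B))..X, (DD M H y + t) * GG ρ B X S θ c y := by
  obtain ⟨C, hC, hlin⟩ := lin hρ hρ0 hB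
  obtain ⟨C', hC', hint⟩ := int_GG hρ hρ0 hB
  refine ⟨C + 12 * C', by positivity, ?_⟩
  intro X H M hX hH t ht ι S θ c θ0 hθ0 hθ
  have h1 := hlin X H M hX hH ι S θ c θ0 hθ0 hθ
  have h2 := hint X hX ι S θ c θ0 hθ0 hθ
  have haX : X * Real.exp (-B) ≤ X := by
    have : Real.exp (-B) ≤ 1 := Real.exp_le_one_iff.2 (by linarith)
    exact mul_le_of_le_one_right hX.le this
  have hGc := GG_cont (B := B) hρ hX S θ c
  obtain ⟨CG, hCG⟩ := (isCompact_Icc (a := X * Real.exp (-B)) (b := X)).exists_bound_of_continuousOn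
    hGc.continuousOn
  have hsub : Set.uIoc (X * Real.exp (-B)) X ⊆ Set.Icc (X * Real.exp (-B)) X := by
    rw [Set.uIoc_of_le haX]; exact Set.Ioc_subset_Icc_self
  have hDG : IntervalIntegrable (fun y => DD M H y * GG ρ B X S θ c y) volume
      (X * Real.exp (-B)) X := by
    refine ii_of (C := ((∑ n ∈ Icc 1 M, ArithmeticFunction.vonMangoldt n) + |H|) * CG)
      ((DD_meas M H).mul hGc.measurable) fun y hy => ?_
    rw [abs_mul]
    have h3 := hCG y (hsub hy)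
    rw [Real.norm_eq_abs] at h3
    have h4 := DD_bound M H y
    exact mul_le_mul h4 h3 (abs_nonneg _) ((abs_nonneg _).trans h4)
  have e1 : ∫ y in (X * Real.exp (-B))..X, (DD M H y + t) * GG ρ B X S θ c y =
      (∫ y in (X * Real.exp (-B))..X, DD M H y * GG ρ B X S θ c y) +
      t * ∫ y in (X * Real.exp (-B))..X, GG ρ B X S θ c y := by
    rw [← intervalIntegral.integral_const_mul, ← intervalIntegral.integral_add hDG
      ((hGc.intervalIntegrable _ _).const_mul t)]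
    exact intervalIntegral.integral_congr fun y _ => by ring
  rw [e1]
  set IG := ∫ y in (X * Real.exp (-B))..X, GG ρ B X S θ c y with hIG
  set Sc := ∑ i ∈ S, |c i| with hSc
  set Ms := ∑ n ∈ Icc 1 M, ArithmeticFunction.vonMangoldt n with hMs
  have hSc0 : 0 ≤ Sc := sum_nonneg fun _ _ => abs_nonneg _
  have hMs0 : 0 ≤ Ms := sum_nonneg fun _ _ => ArithmeticFunction.vonMangoldt_nonneg
  have h3 : -(12 * C' * (H / (X * θ0 ^ 2) * Sc)) ≤ t * IG := by
    have h4 : |t * IG| ≤ 12 * H * (C' / (X * θ0 ^ 2) * Sc) := by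
      rw [abs_mul]
      exact mul_le_mul ht h2 (abs_nonneg _) (by positivity)
    have h5 := (abs_le.1 h4).1
    have e2 : 12 * H * (C' / (X * θ0 ^ 2) * Sc) = 12 * C' * (H / (X * θ0 ^ 2) * Sc) := by ring
    linarith
  have h6 : 0 ≤ 12 * C' * (H ^ 2 / X * Ms * Sc) := by positivity
  have e3 : (C + 12 * C') * (H ^ 2 / X * Ms * Sc + H / (X * θ0 ^ 2) * Sc) =
      C * (H ^ 2 / X * Ms * Sc + H / (X * θ0 ^ 2) * Sc) + 12 * C' * (H ^ 2 / X * Ms * Sc) +
        12 * C' * (H / (X * θ0 ^ 2) * Sc) := by ring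
  rw [e3]
  linarith

end TH819.PL
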