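import Pool.Agent.TH819.PB.Bs

/-! All moments of order greater than one about an arbitrary centre; large values. -/

open Finset MeasureTheory Filter Topology

namespace TH819.PL

open H343 H321VP

lemma mean_bd {X H : ℝ} (hX : 10 ≤ X) (hH : 1 ≤ H) (hHX : H ≤ X) {M : ℕ}
    (hM : ∀ x ≤ X, x + H / 2 ≤ M) :
    |∫ x in (1 : ℝ)..X, DD M H x| ≤ 11 * H * (X - 1) := by
  have hX1' : 1 < X := by linarith
  have hH0 : 0 < H := by linarith
  have hDi : IntervalIntegrable (DD M H) volume 1 X :=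
    ii_of (DD_meas M H) fun y _ => DD_bound M H y
  have h0 : -(H * (X - 1)) ≤ ∫ x in (1 : ℝ)..X, DD M H x := by
    have h1 : ∫ x in (1 : ℝ)..X, (-H : ℝ) ≤ ∫ x in (1 : ℝ)..X, DD M H x := by
      refine intervalIntegral.integral_mono_on hX1'.le intervalIntegrable_const hDi fun x _ => ?_
      unfold DD
      have h5 : 0 ≤ ∑ n ∈ Icc 1 M, ArithmeticFunction.vonMangoldt n *
          (Set.Icc ((n : ℝ) - H / 2) (n + H / 2)).indicator (fun _ => (1 : ℝ)) x :=
        sum_nonneg fun n _ => mul_nonneg ArithmeticFunction.vonMangoldt_nonneg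
          (Set.indicator_nonneg (fun _ _ => zero_le_one) _)
      linarith
    rw [intervalIntegral.integral_const, smul_eq_mul] at h1
    linarith
  set M' := ⌈X + H / 2⌉₊ with hM'
  have hM1 : X + H / 2 ≤ M' := Nat.le_ceil _
  have hM2 : (M' : ℝ) < X + H / 2 + 1 := Nat.ceil_lt_add_one (by positivity)
  have e1 : ∫ x in (1 : ℝ)..X, DD M H x = ∫ x in (1 : ℝ)..X, DD M' H x := by
    refine intervalIntegral.integral_congr fun x hx => ?_
    rw [Set.uIcc_of_le hX1'.le] at hx
    have h1 := psi_eq (H := H) (x := x) (M := M') (by linarith [hx.2])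
    have h2 := psi_eq (H := H) (x := x) (M := M) (hM x hx.2)
    linarith
  have h3 := int_DD_le M' hH0.le hX1'.le
  have h4 : ∑ n ∈ Icc 1 M', ArithmeticFunction.vonMangoldt n ≤ 6 * (M' : ℝ) := by
    have h5 := Chebyshev.psi_le_const_mul_self (x := (M' : ℝ)) (by positivity)
    rw [Chebyshev.psi_eq_sum_Icc, Nat.floor_natCast] at h5
    have h6 : Real.log 4 = 2 * Real.log 2 := by
      rw [show (4 : ℝ) = 2 ^ 2 by norm_num, Real.log_pow]
      push_cast
      ring
    have h7 := Real.log_two_lt_d9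
    have h8 : (Real.log 4 + 4) * (M' : ℝ) ≤ 6 * M' := by
      gcongr
      linarith
    refine le_trans (sum_le_sum_of_subset_of_nonneg ?_ fun n _ _ =>
      ArithmeticFunction.vonMangoldt_nonneg) (h5.trans h8)
    intro n hn
    rw [mem_Icc] at hn ⊢
    exact ⟨by omega, hn.2⟩
  have h5 : H * (∑ n ∈ Icc 1 M', ArithmeticFunction.vonMangoldt n) ≤ H * (6 * (M' : ℝ)) := by
    gcongr
  have h6 : H * (6 * (M' : ℝ)) ≤ H * (12 * (X - 1)) := by
    apply mul_le_mul_of_nonneg_left _ hH0.le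
    linarith
  have h7 : 0 ≤ H * (X - 1) := mul_nonneg hH0.le (by linarith)
  rw [abs_le]
  constructor
  · linarith
  · rw [e1]
    linarith

theorem moments_c : ∀ k : ℕ, 2 ≤ k → ∀ δ : ℝ, 0 < δ → ∃ c X₀ : ℝ, 0 < c ∧ ∀ X H z p : ℝ,
    X₀ ≤ X → 1 ≤ H → H ≤ X ^ (1 / (2 * (k : ℝ)) - δ) → 2 * (k : ℝ) / (2 * k - 1) ≤ p →
    (c * Real.sqrt (H * (1 + Real.log H))) ^ p ≤
      (1 / X) * ∫ x in (1 : ℝ)..X, |psi x H - z| ^ p := by
  intro k hk δ0 hδ0
  have hk0 : (2 : ℝ) ≤ k := by exact_mod_cast hk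
  set δ := min δ0 (1 / (4 * (k : ℝ))) with hδdef
  have hδ : 0 < δ := lt_min hδ0 (by positivity)
  obtain ⟨c0, hc0, hev⟩ := lp_lower_c k hk δ hδ (min_le_right _ _)
  set p0 : ℝ := 2 * (k : ℝ) / (2 * k - 1) with hpdef
  have hkm : (0 : ℝ) < 2 * k - 1 := by linarith
  have hp1 : 1 < p0 := by
    rw [hpdef, lt_div_iff₀ hkm]; linarith
  obtain ⟨X1, hX1⟩ := (hev.and (eventually_ge_atTop (10 : ℝ))).exists_forall_of_atTop
  refine ⟨min c0 (1 / 2), X1, lt_min hc0 (by norm_num), fun X H z p hX hH hHX0 hp => ?_⟩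
  obtain ⟨h1, hX10⟩ := hX1 X hX
  have hX1' : 1 < X := by linarith
  have hX0 : 0 < X := by linarith
  have hHX : H ≤ X ^ (1 / (2 * (k : ℝ)) - δ) := by
    refine hHX0.trans (Real.rpow_le_rpow_of_exponent_le hX1'.le ?_)
    have := min_le_left δ0 (1 / (4 * (k : ℝ)))
    linarith
  obtain ⟨M, hM, hlow⟩ := h1 H hH hHX
  have hlogH : 0 ≤ Real.log H := Real.log_nonneg hH
  have hH0 : 0 < H := by linarith
  set T := Real.sqrt (H * (1 + Real.log H)) with hT
  have hT0 : 0 < T := Real.sqrt_pos.2 (by positivity)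
  have hTH : T ≤ H := by
    rw [hT]
    apply Real.sqrt_le_iff.2 ⟨hH0.le, ?_⟩
    have := Real.log_le_sub_one_of_pos hH0
    rw [sq]
    gcongr
    linarith
  have hpsi : ∀ x ≤ X, psi x H - H = DD M H x := fun x hx => psi_eq (hM x hx)
  have hHleX : H ≤ X := by
    have hkinv : 1 / (2 * (k : ℝ)) ≤ 1 / 4 := by
      apply one_div_le_one_div_of_le (by norm_num)
      linarith
    calc H ≤ X ^ (1 / (2 * (k : ℝ)) - δ) := hHX
      _ ≤ X ^ (1 : ℝ) := Real.rpow_le_rpow_of_exponent_le hX1'.le (by linarith)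
      _ = X := Real.rpow_one X
  set t := H - z with htdef
  set g : ℝ → ℝ := fun x => DD M H x + t with hgdef
  have hgm : Measurable g := (DD_meas M H).add_const t
  have hgb : ∀ y, |g y| ≤ (∑ n ∈ Icc 1 M, ArithmeticFunction.vonMangoldt n) + |H| + |t| :=
    fun y => (abs_add_le _ _).trans (add_le_add (DD_bound M H y) le_rfl)
  have hint : ∫ x in (1 : ℝ)..X, |psi x H - z| ^ p = ∫ x in (1 : ℝ)..X, |g x| ^ p := by
    refine intervalIntegral.integral_congr fun x hx => ?_
    rw [Set.uIcc_of_le hX1'.le] at hx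
    have h3 := hpsi x hx.2
    have h4 : psi x H - z = g x := by
      simp only [hgdef, htdef]
      linarith
    simp only [h4]
  rw [hint]
  have hp0 : 0 < p := by linarith
  have key : min c0 (1 / 2) * T ≤ ((1 / X) * ∫ y in (1 : ℝ)..X, |g y| ^ p) ^ (1 / p) := by
    rcases le_or_gt |t| (12 * H) with h6 | h6
    · refine le_trans ?_ ((hlow t h6).trans (norm_mono hp1.le hp hX1' hgm hgb))
      have : min c0 (1 / 2) ≤ c0 := min_le_left _ _
      gcongr
    · refine le_trans ?_ (norm_mono le_rfl (by linarith) hX1' hgm hgb)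
      have hDi : IntervalIntegrable (DD M H) volume 1 X :=
        ii_of (DD_meas M H) fun y _ => DD_bound M H y
      have h7 : |∫ x in (1 : ℝ)..X, g x| ≤ ∫ x in (1 : ℝ)..X, |g x| :=
        intervalIntegral.abs_integral_le_integral_abs hX1'.le
      have h8 : ∫ x in (1 : ℝ)..X, g x = (∫ x in (1 : ℝ)..X, DD M H x) + (X - 1) * t := by
        simp only [hgdef]
        rw [intervalIntegral.integral_add hDi intervalIntegrable_const,
          intervalIntegral.integral_const, smul_eq_mul]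
      have h9 := mean_bd hX10 hH hHleX hM
      have h10 : (X - 1) * |t| - 11 * H * (X - 1) ≤ |∫ x in (1 : ℝ)..X, g x| := by
        rw [h8]
        have h11 : |(X - 1) * t| = (X - 1) * |t| := by
          rw [abs_mul, abs_of_pos (by linarith)]
        have h12 : |(X - 1) * t| ≤
            |(∫ x in (1 : ℝ)..X, DD M H x) + (X - 1) * t| + |∫ x in (1 : ℝ)..X, DD M H x| := by
          have := abs_sub_abs_le_abs_sub ((X - 1) * t) (-(∫ x in (1 : ℝ)..X, DD M H x))
          rw [abs_neg, sub_neg_eq_add, add_comm ((X - 1) * t)] at this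
          linarith
        linarith
      have h13 : (X - 1) * (12 * H) ≤ (X - 1) * |t| := by
        apply mul_le_mul_of_nonneg_left h6.le (by linarith)
      have h14 : (X - 1) * H ≤ ∫ x in (1 : ℝ)..X, |g x| := by linarith
      have e1 : ((1 / X) * ∫ y in (1 : ℝ)..X, |g y| ^ (1 : ℝ)) ^ (1 / (1 : ℝ)) =
          (∫ y in (1 : ℝ)..X, |g y|) / X := by
        rw [one_div_one, Real.rpow_one]
        simp only [Real.rpow_one]
        ring
      rw [e1, le_div_iff₀ hX0]
      refine le_trans ?_ h14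
      have h15 : min c0 (1 / 2) * T ≤ 1 / 2 * H := by
        have : min c0 (1 / 2) ≤ 1 / 2 := min_le_right _ _
        gcongr
      have h16 : min c0 (1 / 2) * T * X ≤ 1 / 2 * H * X := by gcongr
      nlinarith
  have hm0 : 0 ≤ min c0 (1 / 2) := le_min hc0.le (by norm_num)
  have hI0 : 0 ≤ ∫ y in (1 : ℝ)..X, |g y| ^ p :=
    intervalIntegral.integral_nonneg hX1'.le fun y _ => by positivity
  calc (min c0 (1 / 2) * T) ^ p ≤ (((1 / X) * ∫ y in (1 : ℝ)..X, |g y| ^ p) ^ (1 / p)) ^ p := by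
        gcongr
    _ = _ := by
        rw [← Real.rpow_mul (by positivity), one_div_mul_cancel hp0.ne', Real.rpow_one]

end TH819.PL
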